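import Pool.Agent.Lib.MP_acafa7_al.MS.Iface3

/-! Module G2 (11.2): induction on the derived length. -/

namespace MSG.H53

open Classical MSG
open scoped commutatorElement

/-- the cyclic group of a lift has finite index -/
theorem lift_index {S : Type} [Group S] (B : Subgroup S) [B.Normal] (hB : (B : Set S).Finite)
    (s : S) (h : (Subgroup.zpowers (s : S ⧸ B)).index ≠ 0) : (Subgroup.zpowers s).index ≠ 0 := by
  have hmap : (Subgroup.zpowers s).map (QuotientGroup.mk' B) = Subgroup.zpowers (s : S ⧸ B) := by
    rw [MonoidHom.map_zpowers]; rfl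
  have h1 := Subgroup.index_map (Subgroup.zpowers s) (QuotientGroup.mk' B)
  rw [hmap, QuotientGroup.ker_mk'] at h1
  have h2 : (Subgroup.zpowers s ⊔ B).index ≠ 0 := by
    intro h0
    rw [h0, zero_mul] at h1
    exact h h1
  have h3 : (Subgroup.zpowers s).relIndex (Subgroup.zpowers s ⊔ B) ≠ 0 := by
    have hfin : Finite B := hB
    set H := Subgroup.zpowers s with hH
    have hsurj : Function.Surjective (fun b : B =>
        (QuotientGroup.mk (⟨b.1, (le_sup_right : B ≤ H ⊔ B) b.2⟩ : (H ⊔ B : Subgroup S)) :
          (H ⊔ B : Subgroup S) ⧸ H.subgroupOf (H ⊔ B))) := by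
      intro q
      induction q using QuotientGroup.induction_on with
      | H x =>
        obtain ⟨x, hx⟩ := x
        have hx' : x ∈ ((B ⊔ H : Subgroup S) : Set S) := by rw [sup_comm]; exact hx
        rw [Subgroup.normal_mul] at hx'
        obtain ⟨b, hb, k, hk, rfl⟩ := hx'
        refine ⟨⟨b, hb⟩, ?_⟩
        apply QuotientGroup.eq.2
        rw [Subgroup.mem_subgroupOf]
        simpa using hk
    have : Finite ((H ⊔ B : Subgroup S) ⧸ H.subgroupOf (H ⊔ B)) := Finite.of_surjective _ hsurj
    exact Subgroup.index_ne_zero_of_finite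
  have h4 := Subgroup.relIndex_mul_index (le_sup_left : Subgroup.zpowers s ≤ Subgroup.zpowers s ⊔ B)
  rw [← h4]
  exact Nat.mul_ne_zero h3 h2

theorem g2_aux (hA : G2AStatement) (hB : G2BStatement) (hC : G2CStatement) (N n : ℕ) :
    ∀ (S : Type) [Group S], derivedSeries S n = ⊥ → FinB S N → CycN S →
    Finite S ∨ ∃ s : S, InfO s ∧ (Subgroup.zpowers s).index ≠ 0 := by
  induction n with
  | zero =>
    intro S _ h _ _
    left
    rw [derivedSeries_zero] at h
    have : Subsingleton S := by
      constructor
      intro a b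
      have ha : a ∈ (⊤ : Subgroup S) := trivial
      have hb : b ∈ (⊤ : Subgroup S) := trivial
      rw [h, Subgroup.mem_bot] at ha hb
      rw [ha, hb]
    exact Finite.of_subsingleton
  | succ n ih =>
    intro S _ h hfin hcyc
    set B := derivedSeries S n with hBdef
    have hBn : B.Normal := derivedSeries_normal S n
    have hcomm : ∀ x ∈ B, ∀ y ∈ B, x * y = y * x := by
      intro x hx y hy
      have h1 : ⁅x, y⁆ ∈ derivedSeries S (n + 1) := by
        rw [derivedSeries_succ]
        exact Subgroup.commutator_mem_commutator hx hy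
      rw [h, Subgroup.mem_bot] at h1
      exact commutatorElement_eq_one_iff_mul_comm.1 h1
    by_cases hinf : ∃ b ∈ B, InfO b
    · obtain ⟨b, hb, hbi⟩ := hinf
      right
      exact hA S hcyc B hBn hcomm b hb hbi
    · push Not at hinf
      have htor : ∀ x ∈ B, ∃ m : ℕ, 0 < m ∧ x ^ m = 1 := by
        intro x hx
        have h1 := hinf x hx
        unfold InfO at h1
        push Not at h1
        obtain ⟨m, hm, hm0⟩ := h1
        refine ⟨m.natAbs, Int.natAbs_pos.2 hm0, ?_⟩
        rcases Int.natAbs_eq m with h2 | h2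
        · rw [h2, zpow_natCast] at hm
          exact hm
        · rw [h2, zpow_neg, zpow_natCast, inv_eq_one] at hm
          exact hm
      have hBfin := hB S N hfin B hcomm htor
      obtain ⟨hf', hc'⟩ := hC S N B hBfin hfin hcyc
      have hder : derivedSeries (S ⧸ B) n = ⊥ := by
        have h1 := map_derivedSeries_eq (QuotientGroup.mk'_surjective B) n
        rw [← h1, ← hBdef, eq_bot_iff]
        rintro _ ⟨x, hx, rfl⟩
        rw [Subgroup.mem_bot]
        exact (QuotientGroup.eq_one_iff x).2 hx
      rcases ih (S ⧸ B) hder hf' hc' with h1 | ⟨s, hs, hs2⟩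
      · left
        have hBf : Finite B := hBfin
        exact Finite.of_subgroup_quotient B
      · right
        obtain ⟨s, rfl⟩ := QuotientGroup.mk_surjective s
        refine ⟨s, ?_, lift_index B hBfin s hs2⟩
        intro m hm
        apply hs m
        rw [← QuotientGroup.mk_zpow, hm, QuotientGroup.mk_one]

theorem g2 (hA : G2AStatement) (hB : G2BStatement) (hC : G2CStatement) : G2Statement := by
  intro S _ N hsol hfin hcyc
  obtain ⟨n, hn⟩ := (Group.isSolvable_def S).1 hsol
  exact g2_aux hA hB hC N n S hn hfin hcyc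

end MSG.H53
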